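import Pool.Agent.H37.KR.P5e

/-!
# Assembly of the products in part P5
-/

set_option autoImplicit false

namespace Pool.Agent.H55.KR

open Finset MvPolynomial Pool.Agent.W555.KS Pool.Agent.Y131.KS Pool.Agent.H37.KR

variable {N : ℕ}

theorem coc_comb {K : Finset (Finset (Fin N))} {s b : ℕ} (x : Fin b → ZMod 2)
    (α : Fin b → Finset (Fin N) → ZMod 2) (h : ∀ i, Coc K s (α i)) :
    Coc K s (fun σ => ∑ i, x i * α i σ) := by
  constructor
  · intro σ hσ
    exact sum_eq_zero fun i _ => by rw [(h i).1 σ hσ, mul_zero]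
  · intro ρ hρ hc
    beta_reduce
    rw [sum_comm]
    exact sum_eq_zero fun i _ => by rw [← mul_sum, (h i).2 ρ hρ hc, mul_zero]

theorem pr2_fsum {ι : Type*} (S : Finset ι) (D : ℕ)
    (f : ι → Finset (Fin N) → Finset (Fin N) → ZMod 2)
    (Z : Finset (Fin N) → Finset (Fin N) → ZMod 2) :
    pr2 D (fun σ τ => ∑ j ∈ S, f j σ τ) Z = ∑ j ∈ S, pr2 D (f j) Z := by
  unfold pr2
  symm
  rw [sum_comm]
  refine sum_congr rfl fun σ _ => ?_
  rw [sum_comm]
  refine sum_congr rfl fun τ _ => ?_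
  split_ifs
  · rw [sum_mul]
  · exact sum_const_zero

theorem pr2_mul (a : ZMod 2) (D : ℕ) (f : Finset (Fin N) → Finset (Fin N) → ZMod 2)
    (Z : Finset (Fin N) → Finset (Fin N) → ZMod 2) :
    pr2 D (fun σ τ => a * f σ τ) Z = a * pr2 D f Z := by
  unfold pr2
  rw [mul_sum]
  refine sum_congr rfl fun σ _ => ?_
  rw [mul_sum]
  refine sum_congr rfl fun τ _ => ?_
  split_ifs
  · ring
  · rw [mul_zero]

theorem pr2_cross (D : ℕ) {a b : ℕ} (x : Fin a → ZMod 2) (y : Fin b → ZMod 2)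
    (α : Fin a → Finset (Fin N) → ZMod 2) (β : Fin b → Finset (Fin N) → ZMod 2)
    (Z : Finset (Fin N) → Finset (Fin N) → ZMod 2) :
    pr2 D (fun σ τ => (∑ i, x i * α i σ) * (∑ j, y j * β j τ)) Z =
      ∑ i, ∑ j, x i * y j * pr2 D (fun σ τ => α i σ * β j τ) Z := by
  have e : (fun σ τ : Finset (Fin N) => (∑ i, x i * α i σ) * (∑ j, y j * β j τ)) =
      fun σ τ => ∑ i, ∑ j, (x i * y j) * (α i σ * β j τ) := by
    funext σ τ
    rw [sum_mul_sum]
    refine sum_congr rfl fun i _ => sum_congr rfl fun j _ => ?_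
    ring
  rw [e, pr2_fsum]
  refine sum_congr rfl fun i _ => ?_
  rw [pr2_fsum]
  refine sum_congr rfl fun j _ => ?_
  rw [pr2_mul]

theorem pr2_symm (D : ℕ) (a b : Finset (Fin N) → ZMod 2)
    (Z : Finset (Fin N) → Finset (Fin N) → ZMod 2) (hZ : ∀ σ τ, Z σ τ = Z τ σ) :
    pr2 D (fun σ τ => a σ * b τ) Z = pr2 D (fun σ τ => b σ * a τ) Z := by
  unfold pr2
  rw [sum_comm]
  refine sum_congr rfl fun σ _ => sum_congr rfl fun τ _ => ?_
  by_cases h : Disjoint σ τ ∧ σ.card + τ.card = D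
  · rw [if_pos h, if_pos ⟨h.1.symm, by omega⟩, hZ τ σ]
    ring
  · rw [if_neg h, if_neg (fun h1 => h ⟨h1.1.symm, by omega⟩)]

theorem pr2_diag (D : ℕ) (hD : 0 < D) (a : Finset (Fin N) → ZMod 2)
    (Z : Finset (Fin N) → Finset (Fin N) → ZMod 2) (hZ : ∀ σ τ, Z σ τ = Z τ σ) :
    pr2 D (fun σ τ => a σ * a τ) Z = 0 := by
  classical
  unfold pr2
  rw [← sum_product']
  refine sum_involution (fun p _ => (p.2, p.1)) ?_ ?_ ?_ ?_
  · rintro ⟨σ, τ⟩ _
    beta_reduce
    by_cases h : Disjoint σ τ ∧ σ.card + τ.card = D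
    · rw [if_pos h, if_pos ⟨h.1.symm, by simp only; omega⟩]
      simp only
      rw [hZ τ σ, mul_comm (a τ) (a σ)]
      exact CharTwo.add_self_eq_zero _
    · rw [if_neg h, if_neg (fun h1 => h ⟨h1.1.symm, by have := h1.2; simp only at this; omega⟩),
        add_zero]
  · rintro ⟨σ, τ⟩ _ h1 h2
    have h3 : τ = σ := (Prod.mk.inj h2).1
    subst h3
    apply h1
    rw [if_neg]
    rintro ⟨h4, h5⟩
    rw [disjoint_self_iff_empty] at h4
    subst h4
    simp at h5
    omega
  · rintro ⟨σ, τ⟩ _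
    exact mem_product.2 ⟨mem_univ _, mem_univ _⟩
  · rintro ⟨σ, τ⟩ _
    rfl

/-- a symmetric matrix against a symmetric matrix with zero diagonal -/
theorem sum_symm {b : ℕ} (E P : Fin b → Fin b → ZMod 2) (hE : ∀ i j, E i j = E j i)
    (hP : ∀ i j, P i j = P j i) (h0 : ∀ i, P i i = 0) : ∑ i, ∑ j, E i j * P i j = 0 := by
  classical
  rw [← sum_product']
  refine sum_involution (fun p _ => (p.2, p.1)) ?_ ?_ ?_ ?_
  · rintro ⟨i, j⟩ _
    simp only
    rw [hE j i, hP j i]
    exact CharTwo.add_self_eq_zero _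
  · rintro ⟨i, j⟩ _ h1 h2
    have h3 : j = i := (Prod.mk.inj h2).1
    subst h3
    apply h1
    simp only
    rw [h0, mul_zero]
  · rintro ⟨i, j⟩ _
    exact mem_product.2 ⟨mem_univ _, mem_univ _⟩
  · rintro ⟨i, j⟩ _
    rfl

/-- the products for one `s`: `p + s = d + 1` -/
theorem fam_one (hS : StSym) (K : Finset (Finset (Fin N))) (d p s : ℕ) (hps : p + s = d + 1)
    (hsp : s ≤ p)
    (α : (s : ℕ) → Fin (betti K s) → Finset (Fin N) → ZMod 2)
    (C : Fin (betti K p) → Fin (betti K s) → ZMod 2) (hα : ∀ s i, Coc K s (α s i)) :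
    ∃ (m : ℕ) (β γ : Fin m → Finset (Fin N) → ZMod 2), (∀ t, Coc K p (β t)) ∧
      (∀ t, Coc K s (γ t)) ∧ m ≤ betti K p ∧ (p = s → 2 * m ≤ betti K p) ∧
      ∀ Z, SyC K (d + 1) Z → ∑ t, pr2 (d + 1) (fun σ τ => β t σ * γ t τ) Z =
        ∑ i, ∑ j, C i j * pr2 (d + 1) (fun σ τ => α p i σ * α s j τ) Z := by
  classical
  rcases Nat.lt_or_ge s p with hlt | hge
  · refine ⟨betti K p, α p, fun i τ => ∑ j, C i j * α s j τ, hα p,
      fun i => coc_comb (C i) (α s) (hα s), le_rfl, fun h => by omega, fun Z hZ => ?_⟩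
    refine sum_congr rfl fun i _ => ?_
    have e : (fun σ τ : Finset (Fin N) => α p i σ * ∑ j, C i j * α s j τ) =
        fun σ τ => ∑ j, C i j * (α p i σ * α s j τ) := by
      funext σ τ
      rw [mul_sum]
      refine sum_congr rfl fun j _ => ?_
      ring
    rw [e, pr2_fsum]
    refine sum_congr rfl fun j _ => ?_
    rw [pr2_mul]
  · obtain rfl : p = s := le_antisymm hge hsp
    obtain ⟨m, X, Y, hm, hXY⟩ := hS (betti K p) (fun i j => if i = j then 0 else C i j + C j i)
      (fun i => if_pos rfl) (fun i j => by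
        by_cases h : i = j
        · rw [if_pos h, if_pos h.symm]
        · rw [if_neg h, if_neg (Ne.symm h), add_comm])
    refine ⟨m, fun t σ => ∑ i, X t i * α p i σ, fun t τ => ∑ j, Y t j * α p j τ,
      fun t => coc_comb (X t) (α p) (hα p), fun t => coc_comb (Y t) (α p) (hα p), by omega,
      fun _ => hm, fun Z hZ => ?_⟩
    have e1 : ∀ t, pr2 (d + 1) (fun σ τ => (∑ i, X t i * α p i σ) * ∑ j, Y t j * α p j τ) Z =
        ∑ i, ∑ j, X t i * Y t j * pr2 (d + 1) (fun σ τ => α p i σ * α p j τ) Z :=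
      fun t => pr2_cross (d + 1) (X t) (Y t) (α p) (α p) Z
    rw [sum_congr rfl fun t _ => e1 t, sum_comm]
    have e2 : ∑ i, ∑ j, ((∑ t, X t i * Y t j) + C i j) *
        pr2 (d + 1) (fun σ τ => α p i σ * α p j τ) Z = 0 := by
      refine sum_symm (fun i j => (∑ t, X t i * Y t j) + C i j)
        (fun i j => pr2 (d + 1) (fun σ τ => α p i σ * α p j τ) Z) ?_
        (fun i j => pr2_symm (d + 1) (α p i) (α p j) Z hZ.1)
        (fun i => pr2_diag (d + 1) (Nat.succ_pos d) (α p i) Z hZ.1)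
      intro i j
      by_cases h : i = j
      · subst h; rfl
      · have h1 := hXY i j
        rw [if_neg h, sum_add_distrib] at h1
        have h2 : ∑ t, Y t i * X t j = ∑ t, X t j * Y t i :=
          sum_congr rfl fun t _ => mul_comm _ _
        rw [h2] at h1
        have h3 : ∀ a b c d' : ZMod 2, a + b = c + d' → c + a = d' + b := by decide
        exact h3 _ _ _ _ h1
    have e3 : ∀ a b : ZMod 2, a + b = 0 → a = b := by decide
    apply e3
    rw [← e2, ← sum_add_distrib]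
    refine sum_congr rfl fun i _ => ?_
    rw [sum_comm, ← sum_add_distrib]
    refine sum_congr rfl fun j _ => ?_
    rw [add_mul, sum_mul]

theorem card_fib {n : ℕ} (m : Fin n → ℕ) (s₀ : Fin n) :
    (univ.filter (fun x : (Σ s : Fin n, Fin (m s)) => x.1 = s₀)).card = m s₀ := by
  classical
  have e : univ.filter (fun x : (Σ s : Fin n, Fin (m s)) => x.1 = s₀) =
      ({s₀} : Finset (Fin n)).sigma (fun s => (univ : Finset (Fin (m s)))) := by
    ext ⟨s, t⟩
    simp
  rw [e, card_sigma, sum_singleton, card_univ, Fintype.card_fin]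

theorem stP5c : StP5c := by
  classical
  intro hS N K d α C hα hC
  -- the families for one `s`
  have key : ∀ s : Fin (d + 2), ∃ (m : ℕ) (β γ : Fin m → Finset (Fin N) → ZMod 2),
      (∀ t, Coc K (d + 1 - s) (β t)) ∧ (∀ t, Coc K s (γ t)) ∧
      (2 * (s : ℕ) < d + 1 → m ≤ betti K (d + 1 - s)) ∧
      (2 * (s : ℕ) = d + 1 → 2 * m ≤ betti K (d + 1 - s)) ∧ (d + 1 < 2 * (s : ℕ) → m = 0) ∧
      ∀ Z, SyC K (d + 1) Z → ∑ t, pr2 (d + 1) (fun σ τ => β t σ * γ t τ) Z =
        if 2 * (s : ℕ) ≤ d + 1 then ∑ i, ∑ j, C (d + 1 - s) s i j *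
          pr2 (d + 1) (fun σ τ => α (d + 1 - s) i σ * α s j τ) Z else 0 := by
    intro s
    have hs := s.2
    by_cases h : 2 * (s : ℕ) ≤ d + 1
    · obtain ⟨m, β, γ, h1, h2, h3, h4, h5⟩ := fam_one hS K d (d + 1 - s) s (by omega) (by omega) α
        (C (d + 1 - s) s) hα
      refine ⟨m, β, γ, h1, h2, fun _ => h3, fun h6 => h4 (by omega), fun h6 => by omega,
        fun Z hZ => ?_⟩
      rw [if_pos h]
      exact h5 Z hZ
    · refine ⟨0, Fin.elim0, Fin.elim0, fun t => t.elim0, fun t => t.elim0, fun h6 => by omega,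
        fun h6 => by omega, fun _ => rfl, fun Z hZ => ?_⟩
      rw [if_neg h]
      exact sum_eq_zero fun t _ => t.elim0
  choose m β γ h1 h2 h3 h4 h5 h6 using key
  let ι := Σ s : Fin (d + 2), Fin (m s)
  let e : ι ≃ Fin (Fintype.card ι) := Fintype.equivFin ι
  have hlt : ∀ x : ι, 2 * (x.1 : ℕ) ≤ d + 1 := by
    rintro ⟨s, t⟩
    by_contra hcon
    have := h5 s (by simp only at hcon; omega)
    have h7 := t.2
    omega
  refine ⟨Fintype.card ι, fun j => d + 1 - ((e.symm j).1 : ℕ),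
    fun j => β (e.symm j).1 (e.symm j).2, fun j => γ (e.symm j).1 (e.symm j).2,
    ⟨fun j => ?_, fun j => h1 _ _, fun j => ?_, ?_⟩, ?_⟩
  · have := hlt (e.symm j)
    beta_reduce
    omega
  · have h7 : d + 1 - (d + 1 - ((e.symm j).1 : ℕ)) = ((e.symm j).1 : ℕ) := by
      have := (e.symm j).1.2
      omega
    beta_reduce
    rw [h7]
    exact h2 _ _
  · intro Z hs hsupp hcl
    have hZ : SyC K (d + 1) Z := ⟨hs, hsupp, hcl⟩
    rw [hC Z hZ, pr2_fsum, sum_range]
    rw [sum_congr rfl fun s _ => (h6 s Z hZ).symm]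
    have e1 : ∑ j, pr2 (d + 1) (fun σ τ => β (e.symm j).1 (e.symm j).2 σ *
        γ (e.symm j).1 (e.symm j).2 τ) Z =
        ∑ x : ι, pr2 (d + 1) (fun σ τ => β x.1 x.2 σ * γ x.1 x.2 τ) Z :=
      Equiv.sum_comp e.symm (fun x : ι => pr2 (d + 1) (fun σ τ => β x.1 x.2 σ * γ x.1 x.2 τ) Z)
    rw [e1, Fintype.sum_sigma]
  · intro r hr
    unfold nf
    have c1 : ∀ (P : ι → Prop) [DecidablePred P], (univ.filter (fun j => P (e.symm j))).card =
        (univ.filter P).card := by
      intro P _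
      refine card_bij (fun j _ => e.symm j) ?_ ?_ ?_
      · intro j hj
        exact mem_filter.2 ⟨mem_univ _, (mem_filter.1 hj).2⟩
      · intro i _ j _ hij
        exact e.symm.injective hij
      · intro x hx
        refine ⟨e x, mem_filter.2 ⟨mem_univ _, ?_⟩, e.symm_apply_apply x⟩
        rw [e.symm_apply_apply]
        exact (mem_filter.1 hx).2
    have c2 := c1 (fun x => d + 1 - (x.1 : ℕ) = r)
    have c3 := c1 (fun x => d + 1 - (d + 1 - (x.1 : ℕ)) = r)
    refine (le_of_eq (congrArg₂ (· + ·) c2 c3)).trans ?_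
    rcases Nat.lt_or_ge (d + 1) r with hbig | hle
    · have d1 : univ.filter (fun x : ι => d + 1 - (x.1 : ℕ) = r) = ∅ :=
        filter_eq_empty_iff.2 fun x _ => by omega
      have d2 : univ.filter (fun x : ι => d + 1 - (d + 1 - (x.1 : ℕ)) = r) = ∅ :=
        filter_eq_empty_iff.2 fun x _ => by omega
      rw [d1, d2, card_empty]
      omega
    · have d1 : univ.filter (fun x : ι => d + 1 - (x.1 : ℕ) = r) =
          univ.filter (fun x : ι => x.1 = ⟨d + 1 - r, by omega⟩) := by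
        refine filter_congr fun x _ => ?_
        have := x.1.2
        rw [Fin.ext_iff]
        simp only
        omega
      have d2 : univ.filter (fun x : ι => d + 1 - (d + 1 - (x.1 : ℕ)) = r) =
          univ.filter (fun x : ι => x.1 = ⟨r, by omega⟩) := by
        refine filter_congr fun x _ => ?_
        have := x.1.2
        rw [Fin.ext_iff]
        simp only
        omega
      have d3 := card_fib m ⟨d + 1 - r, by omega⟩
      have d4 := card_fib m ⟨r, by omega⟩
      rw [d1, d2]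
      refine (Nat.add_le_add d3.le d4.le).trans ?_
      rcases Nat.lt_or_ge (d + 1) (2 * r) with h8 | h8
      · have h9 := h5 ⟨r, by omega⟩ (by simp only; omega)
        have h10 := h3 ⟨d + 1 - r, by omega⟩ (by simp only; omega)
        have h11 : d + 1 - (d + 1 - r) = r := by omega
        simp only at h10
        rw [h11] at h10
        omega
      · have h8' : 2 * r = d + 1 := by omega
        have h9 := h4 ⟨r, by omega⟩ h8'
        have h11 : d + 1 - r = r := by omega
        have h12 : (⟨d + 1 - r, by omega⟩ : Fin (d + 2)) = ⟨r, by omega⟩ := Fin.ext h11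
        rw [h12]
        simp only at h9
        rw [h11] at h9
        omega

end Pool.Agent.H55.KR
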