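import Pool.Agent.H37.KR.Man
import Pool.Graph.R_seed8.Y131.KS.Odd

/-!
# Subcomplexes: relabelling of the vertices and restriction
-/

set_option autoImplicit false

namespace Pool.Agent.H55.KR

open Finset Pool.Agent.W555.KS Pool.Agent.Y131.KS Pool.Agent.H37.KR

variable {N n : ℕ}

theorem map_symm (π : Equiv.Perm (Fin N)) (σ : Finset (Fin N)) :
    (σ.map π.symm.toEmbedding).map π.toEmbedding = σ := by
  rw [map_map]
  ext x
  simp

theorem map_symm' (π : Equiv.Perm (Fin N)) (σ : Finset (Fin N)) :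
    (σ.map π.toEmbedding).map π.symm.toEmbedding = σ := by
  rw [map_map]
  ext x
  simp

/-- odd maps do not depend on the names of the vertices -/
theorem odd_perm {π : Equiv.Perm (Fin N)} {K : Finset (Finset (Fin N))} {d : ℕ}
    (h : OddMap K d) : OddMap (im π.toEmbedding K) d := by
  obtain ⟨f, hf, hf'⟩ := h
  have key : ∀ x ∈ dJoin (im π.toEmbedding K), (fun i => x (π i)) ∈ dJoin K := by
    rintro x ⟨h1, h2, h3⟩
    refine ⟨?_, ?_, ?_⟩
    · rw [← h1]
      exact Equiv.sum_comp π (fun i => |x i|)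
    · rw [← map_mem_im (f := π.toEmbedding)]
      have e : (univ.filter (fun i => 0 < x (π i))).map π.toEmbedding =
          univ.filter (fun i => 0 < x i) := by
        ext i
        simp only [mem_map, mem_filter, mem_univ, true_and, Equiv.coe_toEmbedding]
        constructor
        · rintro ⟨j, h, rfl⟩
          exact h
        · intro h
          exact ⟨π.symm i, by rw [Equiv.apply_symm_apply]; exact h, Equiv.apply_symm_apply _ _⟩
      rw [e]
      exact h2
    · rw [← map_mem_im (f := π.toEmbedding)]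
      have e : (univ.filter (fun i => x (π i) < 0)).map π.toEmbedding =
          univ.filter (fun i => x i < 0) := by
        ext i
        simp only [mem_map, mem_filter, mem_univ, true_and, Equiv.coe_toEmbedding]
        constructor
        · rintro ⟨j, h, rfl⟩
          exact h
        · intro h
          exact ⟨π.symm i, by rw [Equiv.apply_symm_apply]; exact h, Equiv.apply_symm_apply _ _⟩
      rw [e]
      exact h3
  refine ⟨fun x => f (fun i => x (π i)), ?_, ?_⟩
  · refine hf.comp (Continuous.continuousOn ?_) key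
    exact continuous_pi fun i => continuous_apply (π i)
  · intro x hx
    exact hf' _ (key x hx)

theorem lk_im {f : Fin n ↪ Fin N} {K : Finset (Finset (Fin n))} {σ : Finset (Fin n)} :
    lk (im f K) (σ.map f) = im f (lk K σ) := by
  ext τ
  constructor
  · intro h
    obtain ⟨h1, h2⟩ := mem_lk.1 h
    obtain ⟨ρ, hρ, hρ'⟩ := mem_im.1 h2
    have h3 : τ ⊆ ρ.map f := by rw [hρ']; exact subset_union_left
    obtain ⟨τ', -, rfl⟩ := subset_map_iff.1 h3
    rw [← map_union, Finset.map_inj] at hρ'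
    rw [disjoint_map] at h1
    exact mem_im.2 ⟨τ', mem_lk.2 ⟨h1, hρ' ▸ hρ⟩, rfl⟩
  · intro h
    obtain ⟨τ', h', rfl⟩ := mem_im.1 h
    rw [mem_lk] at h'
    rw [mem_lk, disjoint_map, ← map_union, map_mem_im]
    exact h'

theorem bdr_tr (π : Equiv.Perm (Fin N)) (c : Finset (Fin N) → ZMod 2) (ρ : Finset (Fin N)) :
    bdr (fun σ => c (σ.map π.toEmbedding)) ρ = bdr c (ρ.map π.toEmbedding) := by
  unfold bdr
  refine sum_equiv π ?_ ?_
  · intro v
    simp
  · intro v _
    beta_reduce
    rw [map_insert]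
    rfl

theorem sp_tr {π : Equiv.Perm (Fin N)} {K : Finset (Finset (Fin N))} {s : ℕ}
    {c : Finset (Fin N) → ZMod 2} (h : Sp K s c) :
    Sp (im π.toEmbedding K) s (fun σ => c (σ.map π.symm.toEmbedding)) := by
  intro σ hσ
  obtain ⟨h1, h2⟩ := h _ hσ
  rw [card_map] at h2
  exact ⟨mem_im.2 ⟨_, h1, map_symm π σ⟩, h2⟩

theorem sp_tr' {π : Equiv.Perm (Fin N)} {K : Finset (Finset (Fin N))} {s : ℕ}
    {c : Finset (Fin N) → ZMod 2} (h : Sp (im π.toEmbedding K) s c) :
    Sp K s (fun σ => c (σ.map π.toEmbedding)) := by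
  intro σ hσ
  obtain ⟨h1, h2⟩ := h _ hσ
  rw [map_mem_im] at h1
  rw [card_map] at h2
  exact ⟨h1, h2⟩

theorem top_perm {π : Equiv.Perm (Fin N)} {K : Finset (Finset (Fin N))} {s : ℕ}
    (h : ∃ z : Finset (Fin N) → ZMod 2, z ≠ 0 ∧ Sp K s z ∧ (∀ ρ, bdr z ρ = 0) ∧
      ∀ z', Sp K s z' → (∀ ρ, bdr z' ρ = 0) → z' = 0 ∨ z' = z) :
    ∃ z : Finset (Fin N) → ZMod 2, z ≠ 0 ∧ Sp (im π.toEmbedding K) s z ∧ (∀ ρ, bdr z ρ = 0) ∧
      ∀ z', Sp (im π.toEmbedding K) s z' → (∀ ρ, bdr z' ρ = 0) → z' = 0 ∨ z' = z := by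
  obtain ⟨z, h0, h1, h2, h3⟩ := h
  refine ⟨fun σ => z (σ.map π.symm.toEmbedding), ?_, sp_tr h1, ?_, ?_⟩
  · intro h
    apply h0
    funext σ
    have := congrFun h (σ.map π.toEmbedding)
    rw [map_symm'] at this
    exact this
  · intro ρ
    rw [bdr_tr π.symm]
    exact h2 _
  · intro z' h4 h5
    rcases h3 (fun σ => z' (σ.map π.toEmbedding)) (sp_tr' h4) (fun ρ => by
      rw [bdr_tr π]; exact h5 _) with h | h
    · left
      funext σ
      have := congrFun h (σ.map π.symm.toEmbedding)
      rw [map_symm] at this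
      exact this
    · right
      funext σ
      have := congrFun h (σ.map π.symm.toEmbedding)
      rw [map_symm] at this
      exact this

theorem hsph_perm {π : Equiv.Perm (Fin N)} {K : Finset (Finset (Fin N))} {d : ℕ}
    (h : HSph K d) : HSph (im π.toEmbedding K) d where
  cx := im_cx h.cx
  card_le := by
    intro σ hσ
    obtain ⟨σ', h1, rfl⟩ := mem_im.1 hσ
    rw [card_map]
    exact h.card_le _ h1
  ac := by
    intro σ hσ j hj
    obtain ⟨σ', h1, rfl⟩ := mem_im.1 hσ
    rw [card_map] at hj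
    rw [lk_im]
    exact ac_perm (h.ac _ h1 j hj)
  top := by
    intro σ hσ
    obtain ⟨σ', h1, rfl⟩ := mem_im.1 hσ
    rw [card_map, lk_im]
    exact top_perm (h.top _ h1)

theorem hman_perm {π : Equiv.Perm (Fin N)} {K : Finset (Finset (Fin N))} {d : ℕ}
    (h : HMan K d) : HMan (im π.toEmbedding K) d where
  cx := im_cx h.cx
  two_le := h.two_le
  card_le := by
    intro σ hσ
    obtain ⟨σ', h1, rfl⟩ := mem_im.1 hσ
    rw [card_map]
    exact h.card_le _ h1
  lks := by
    intro v hv
    have e : ({v} : Finset (Fin N)) = ({π.symm v} : Finset (Fin N)).map π.toEmbedding := by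
      simp
    rw [e, map_mem_im] at hv
    rw [e, lk_im]
    exact hsph_perm (h.lks _ hv)
  top := top_perm h.top

theorem betti_perm (π : Equiv.Perm (Fin N)) (K : Finset (Finset (Fin N))) (s : ℕ) :
    betti (im π.toEmbedding K) s = betti K s := by
  let E : (Finset (Fin N) → ZMod 2) ≃ₗ[ZMod 2] (Finset (Fin N) → ZMod 2) :=
    LinearEquiv.funCongrLeft (ZMod 2) (ZMod 2) (Equiv.finsetCongr π)
  have hE : ∀ c, E.symm c = fun σ => c (σ.map π.symm.toEmbedding) := fun c => rfl
  have h1 : (cycS (im π.toEmbedding K) s).map (E : (Finset (Fin N) → ZMod 2) →ₗ[ZMod 2]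
      (Finset (Fin N) → ZMod 2)) = cycS K s := by
    ext c
    rw [Submodule.mem_map_equiv, hE]
    constructor
    · rintro ⟨h1, h2⟩
      have h3 := sp_tr' h1
      have e : (fun σ => (fun σ => c (σ.map π.symm.toEmbedding)) (σ.map π.toEmbedding)) = c := by
        funext σ
        beta_reduce
        rw [map_symm']
      rw [e] at h3
      refine ⟨h3, fun ρ => ?_⟩
      have h4 := h2 (ρ.map π.toEmbedding)
      rw [bdr_tr π.symm, map_symm'] at h4
      exact h4
    · rintro ⟨h1, h2⟩
      exact ⟨sp_tr h1, fun ρ => by rw [bdr_tr π.symm]; exact h2 _⟩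
  have h2 : (bdS (im π.toEmbedding K) s).map (E : (Finset (Fin N) → ZMod 2) →ₗ[ZMod 2]
      (Finset (Fin N) → ZMod 2)) = bdS K s := by
    ext c
    rw [Submodule.mem_map_equiv, hE]
    constructor
    · rintro ⟨b, h1, h2⟩
      refine ⟨fun σ => b (σ.map π.toEmbedding), sp_tr' h1, fun ρ => ?_⟩
      rw [bdr_tr π, ← h2]
      beta_reduce
      rw [map_symm']
    · rintro ⟨b, h1, h2⟩
      refine ⟨_, sp_tr h1, fun ρ => ?_⟩
      rw [bdr_tr π.symm, ← h2]
  unfold betti
  rw [← h1, ← h2, LinearEquiv.finrank_map_eq, LinearEquiv.finrank_map_eq]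

/-- restriction of the hypothesis along strictly monotone maps of the vertices -/
theorem hyp_mono {f : Fin n ↪ Fin N} (hf : StrictMono f) {L : Finset (Finset (Fin n))}
    {K : Finset (Finset (Fin N))} (hLK : ∀ σ ∈ L, σ.map f ∈ K) {d m : ℕ} {b : Fin m → ℕ}
    {β α : Fin m → Finset (Fin N) → ZMod 2} (h : Hyp K d b β α) :
    Hyp L d b (fun j σ => β j (σ.map f)) (fun j σ => α j (σ.map f)) := by
  classical
  obtain ⟨h1, h2, h3, hK⟩ := h
  have hcoc : ∀ (s : ℕ) (γ : Finset (Fin N) → ZMod 2), Coc K s γ →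
      Coc L s (fun σ => γ (σ.map f)) := by
    rintro s γ ⟨a, b⟩
    refine ⟨fun σ hσ => a _ (by rwa [card_map]), fun ρ hρ hc => ?_⟩
    have := b _ (hLK ρ hρ) (by rwa [card_map])
    rw [sum_map] at this
    rw [← this]
    refine sum_congr rfl fun v _ => ?_
    show γ ((ρ.erase v).map f) = _
    rw [map_erase]
  refine ⟨h1, fun j => hcoc _ _ (h2 j), fun j => hcoc _ _ (h3 j), ?_⟩
  intro Z hs hsupp hcy
  set W : Finset (Fin N) → Finset (Fin N) → ZMod 2 := fun σ τ =>
    if σ ⊆ univ.map f ∧ τ ⊆ univ.map f then Z (pre f σ) (pre f τ) else 0 with hW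
  have hWm : ∀ σ τ : Finset (Fin n), W (σ.map f) (τ.map f) = Z σ τ := by
    intro σ τ
    simp only [hW]
    rw [if_pos ⟨map_subset_map.2 (subset_univ _), map_subset_map.2 (subset_univ _)⟩, pre_map,
      pre_map]
  have hW0 : ∀ σ τ, W σ τ ≠ 0 → σ ⊆ univ.map f ∧ τ ⊆ univ.map f := by
    intro σ τ h
    by_contra hcon
    simp only [hW] at h
    rw [if_neg hcon] at h
    exact h rfl
  have h := hK W (by
    intro σ τ
    simp only [hW]
    by_cases hc : σ ⊆ univ.map f ∧ τ ⊆ univ.map f
    · rw [if_pos hc, if_pos ⟨hc.2, hc.1⟩, hs]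
    · rw [if_neg hc, if_neg (fun h => hc ⟨h.2, h.1⟩)]) (by
    intro σ τ h
    obtain ⟨h1, h2⟩ := hW0 _ _ h
    rw [← map_pre h1, ← map_pre h2, hWm] at h
    obtain ⟨h3, h4⟩ := hsupp _ _ h
    rw [← map_pre h1, ← map_pre h2]
    exact ⟨hLK _ h3, hLK _ h4⟩) (by
    intro ρ τ hd hc
    by_cases hr : ρ ⊆ univ.map f ∧ τ ⊆ univ.map f
    · obtain ⟨h1, h2⟩ := hr
      rw [← map_pre h1, ← map_pre h2] at hd hc ⊢
      generalize pre f ρ = ρ' at *
      generalize pre f τ = τ' at *
      rw [disjoint_map] at hd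
      rw [card_map, card_map] at hc
      rw [← hcy ρ' τ' hd hc]
      have e : ((ρ' ∪ τ')ᶜ).map f ⊆ (ρ'.map f ∪ τ'.map f)ᶜ := by
        intro x hx
        obtain ⟨y, h3, rfl⟩ := mem_map.1 hx
        rw [mem_compl, mem_union, not_or] at h3 ⊢
        rw [mem_map' f, mem_map' f]
        exact h3
      rw [← sum_subset e]
      · rw [sum_map]
        refine sum_congr rfl fun v _ => ?_
        rw [← map_insert, ← map_insert, hWm, hWm]
      · intro x hx hx'
        rw [mem_compl, mem_union, not_or] at hx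
        have hx2 : x ∉ univ.map f := by
          intro h3
          obtain ⟨y, -, rfl⟩ := mem_map.1 h3
          rw [mem_map' f, mem_map' f] at hx
          apply hx'
          rw [mem_map' f, mem_compl, mem_union, not_or]
          exact hx
        have e1 : W (insert x (ρ'.map f)) (τ'.map f) = 0 := by
          by_contra hne
          exact hx2 ((hW0 _ _ hne).1 (mem_insert_self _ _))
        have e2 : W (ρ'.map f) (insert x (τ'.map f)) = 0 := by
          by_contra hne
          exact hx2 ((hW0 _ _ hne).2 (mem_insert_self _ _))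
        rw [e1, e2, add_zero]
    · refine sum_eq_zero fun v _ => ?_
      have e1 : W (insert v ρ) τ = 0 := by
        by_contra hne
        obtain ⟨a, b⟩ := hW0 _ _ hne
        exact hr ⟨(subset_insert _ _).trans a, b⟩
      have e2 : W ρ (insert v τ) = 0 := by
        by_contra hne
        obtain ⟨a, b⟩ := hW0 _ _ hne
        exact hr ⟨a, (subset_insert _ _).trans b⟩
      rw [e1, e2, add_zero])
  have hl : ∑ U ∈ powersetCard (d + 1) univ, Z (evenPart U) (oddPart U) =
      ∑ U ∈ powersetCard (d + 1) univ, W (evenPart U) (oddPart U) := by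
    have e : (powersetCard (d + 1) (univ : Finset (Fin n))).map
        (Finset.mapEmbedding f).toEmbedding ⊆ powersetCard (d + 1) (univ : Finset (Fin N)) := by
      intro U hU
      obtain ⟨U', h1, rfl⟩ := mem_map.1 hU
      rw [mem_powersetCard] at h1 ⊢
      refine ⟨subset_univ _, ?_⟩
      change (U'.map f).card = d + 1
      rw [card_map]
      exact h1.2
    rw [← sum_subset e]
    · rw [sum_map]
      refine sum_congr rfl fun U _ => ?_
      change Z (evenPart U) (oddPart U) = W (evenPart (U.map f)) (oddPart (U.map f))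
      rw [even_map hf, odd_map hf, hWm]
    · intro U hU hU'
      by_contra hne
      obtain ⟨a, b⟩ := hW0 _ _ hne
      apply hU'
      have h1 : U ⊆ univ.map f := by
        intro x hx
        by_cases hx' : Even (U.filter (fun w => w < x)).card
        · exact a (mem_filter.2 ⟨hx, hx'⟩)
        · exact b (mem_filter.2 ⟨hx, hx'⟩)
      rw [mem_map]
      refine ⟨pre f U, mem_powersetCard.2 ⟨subset_univ _, ?_⟩, map_pre h1⟩
      rw [← card_map f, map_pre h1]
      exact (mem_powersetCard.1 hU).2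
  rw [hl, h]
  unfold pr2
  have e : (univ : Finset (Finset (Fin n))).map (Finset.mapEmbedding f).toEmbedding ⊆
      (univ : Finset (Finset (Fin N))) := subset_univ _
  have hin : ∀ σ : Finset (Fin N),
      σ ∉ (univ : Finset (Finset (Fin n))).map (Finset.mapEmbedding f).toEmbedding →
      ¬ σ ⊆ univ.map f := by
    intro σ hσ h
    apply hσ
    rw [mem_map]
    exact ⟨pre f σ, mem_univ _, map_pre h⟩
  rw [← sum_subset e]
  · rw [sum_map]
    refine sum_congr rfl fun σ _ => ?_
    rw [← sum_subset e]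
    · rw [sum_map]
      refine sum_congr rfl fun τ _ => ?_
      change (if Disjoint (σ.map f) (τ.map f) ∧ (σ.map f).card + (τ.map f).card = d + 1 then
        (∑ j, β j (σ.map f) * α j (τ.map f)) * W (σ.map f) (τ.map f) else 0) = _
      simp only [disjoint_map, card_map, hWm]
    · intro τ _ hτ
      have h0 : W ((Finset.mapEmbedding f).toEmbedding σ) τ = 0 := by
        by_contra hne
        exact hin _ hτ (hW0 _ _ hne).2
      rw [h0, mul_zero, ite_self]
  · intro σ _ hσ
    refine sum_eq_zero fun τ _ => ?_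
    have h0 : W σ τ = 0 := by
      by_contra hne
      exact hin _ hσ (hW0 _ _ hne).1
    rw [h0, mul_zero, ite_self]

/-- PART P6 with an odd map as hypothesis -/
def StP6o : Prop := StP5 → StSym → StP1 → StP2 → StP3 → ∀ (N n : ℕ) (K : Finset (Finset (Fin N)))
  (d : ℕ) (L : Finset (Finset (Fin n))) (f : Fin n ↪ Fin N), HMan K d → OddMap K (d + 1) →
  (∀ σ ∈ L, σ.map f ∈ K) →
  ∃ (m : ℕ) (b : Fin m → ℕ) (β α : Fin m → Finset (Fin n) → ZMod 2),
    Hyp L d b β α ∧ ∀ r, d < 2 * r → nf d b r ≤ betti K r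

theorem stP6o : StP6o := by
  classical
  intro h5 hS h1 h2 h3 N n K d L f hK hO hf
  have hnN : n ≤ N := by
    have := Fintype.card_le_of_embedding f
    simpa using this
  set g : Fin n ↪ Fin N := Fin.castLEEmb hnN with hg
  have hgm : StrictMono g := fun i j hij => by
    change Fin.castLE hnN i < Fin.castLE hnN j
    exact Fin.strictMono_castLE hnN hij
  -- a permutation with `π ∘ f = g`
  obtain ⟨π, hπ⟩ : ∃ π : Equiv.Perm (Fin N), ∀ i, π (f i) = g i := by
    let E : {x // x ∈ Set.range f} ≃ {x // x ∈ Set.range g} :=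
      (Equiv.ofInjective f f.injective).symm.trans (Equiv.ofInjective g g.injective)
    refine ⟨E.extendSubtype, fun i => ?_⟩
    rw [Equiv.extendSubtype_apply_of_mem E (f i) ⟨i, rfl⟩]
    change ((Equiv.ofInjective g g.injective) ((Equiv.ofInjective f f.injective).symm
      ⟨f i, ⟨i, rfl⟩⟩) : Fin N) = g i
    have : (Equiv.ofInjective f f.injective).symm ⟨f i, ⟨i, rfl⟩⟩ = i := by
      rw [Equiv.symm_apply_eq]
      rfl
    rw [this]
    rfl
  obtain ⟨m, b, β, α, hh, hb⟩ := h5 hS h1 h2 h3 N (im π.toEmbedding K) d (hman_perm hK)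
    (vk2_of_odd (im_cx hK.cx) (odd_perm hO))
  refine ⟨m, b, _, _, hyp_mono hgm ?_ hh, fun r hr => ?_⟩
  · intro σ hσ
    rw [mem_im]
    refine ⟨σ.map f, hf σ hσ, ?_⟩
    rw [map_map]
    congr 1
    ext i
    exact congrArg Fin.val (hπ i)
  · rw [← betti_perm π K r]
    exact hb r hr

end Pool.Agent.H55.KR
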