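import Pool.Agent.H37.KR.Man

/-!
# Alternating matrices over the field with two elements have even rank
-/

set_option autoImplicit false

namespace Pool.Agent.H55.KR

open Finset Pool.Agent.H37.KR

theorem sym_aux (b : ℕ) (s : ℕ) : ∀ c : Fin b → Fin b → ZMod 2, (∀ i, c i i = 0) →
    (∀ i j, c i j = c j i) → (univ.filter (fun i => ∃ j, c i j ≠ 0)).card = s →
    ∃ (m : ℕ) (X Y : Fin m → Fin b → ZMod 2), 2 * m ≤ s ∧
      ∀ i j, c i j = ∑ t, (X t i * Y t j + Y t i * X t j) := by
  classical
  induction s using Nat.strong_induction_on with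
  | _ s ih =>
  intro c h0 hs hcard
  by_cases hc : ∃ i j, c i j ≠ 0
  · obtain ⟨i₀, j₀, hij⟩ := hc
    have h1 : ∀ x : ZMod 2, x ≠ 0 → x = 1 := by decide
    have hz : ∀ x : ZMod 2, x + x = 0 := by decide
    have hij1 : c i₀ j₀ = 1 := h1 _ hij
    have hne : i₀ ≠ j₀ := by
      rintro rfl
      exact hij (h0 _)
    set c' : Fin b → Fin b → ZMod 2 := fun i j => c i j + (c i j₀ * c i₀ j + c i₀ i * c j j₀)
      with hc'
    have g0 : ∀ i, c' i i = 0 := by
      intro i
      simp only [hc']
      rw [h0, zero_add, mul_comm (c i₀ i)]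
      exact hz _
    have gs : ∀ i j, c' i j = c' j i := by
      intro i j
      simp only [hc']
      rw [hs i j]
      ring
    have hrow1 : ∀ j, c' i₀ j = 0 := by
      intro j
      simp only [hc']
      rw [hij1, h0, one_mul, zero_mul, add_zero]
      exact hz _
    have hrow2 : ∀ j, c' j₀ j = 0 := by
      intro j
      simp only [hc']
      rw [h0 j₀, hij1, zero_mul, zero_add, one_mul, hs j j₀]
      exact hz _
    have hsub : univ.filter (fun i => ∃ j, c' i j ≠ 0) ⊆
        ((univ.filter (fun i => ∃ j, c i j ≠ 0)).erase i₀).erase j₀ := by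
      intro i hi
      obtain ⟨j, hj⟩ := (mem_filter.1 hi).2
      rw [mem_erase, mem_erase, mem_filter]
      refine ⟨?_, ?_, mem_univ _, ?_⟩
      · rintro rfl
        exact hj (hrow2 _)
      · rintro rfl
        exact hj (hrow1 _)
      · by_contra hcon
        push Not at hcon
        apply hj
        simp only [hc']
        rw [hcon, hcon, hs i₀ i, hcon]
        ring
    have hi₀ : i₀ ∈ univ.filter (fun i => ∃ j, c i j ≠ 0) :=
      mem_filter.2 ⟨mem_univ _, j₀, hij⟩
    have hj₀ : j₀ ∈ (univ.filter (fun i => ∃ j, c i j ≠ 0)).erase i₀ :=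
      mem_erase.2 ⟨hne.symm, mem_filter.2 ⟨mem_univ _, i₀, by rw [hs]; exact hij⟩⟩
    have hcard1 := card_erase_of_mem hi₀
    have hcard2 := card_erase_of_mem hj₀
    have hpos1 := card_pos.2 ⟨_, hi₀⟩
    have hpos2 := card_pos.2 ⟨_, hj₀⟩
    have hle := card_le_card hsub
    obtain ⟨m, X, Y, hm, hXY⟩ := ih _ (by omega) c' g0 gs rfl
    refine ⟨m + 1, Fin.cons (fun i => c i j₀) X, Fin.cons (fun j => c i₀ j) Y, by omega, ?_⟩
    intro i j
    rw [Fin.sum_univ_succ]
    simp only [Fin.cons_zero, Fin.cons_succ]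
    rw [← hXY i j]
    simp only [hc']
    have e : ∀ x y : ZMod 2, x = y + (x + y) := by decide
    exact e _ _
  · push Not at hc
    refine ⟨0, Fin.elim0, Fin.elim0, by omega, fun i j => ?_⟩
    rw [hc i j]
    simp

theorem stSym : StSym := by
  classical
  intro b c h0 hs
  obtain ⟨m, X, Y, hm, h⟩ := sym_aux b _ c h0 hs rfl
  refine ⟨m, X, Y, hm.trans ?_, h⟩
  exact (card_le_univ _).trans (by rw [Fintype.card_fin])

end Pool.Agent.H55.KR
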